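import Pool.Agent.W945.Pw.Stm2

/-!
# PW2-NUML: the numerical estimate
-/

set_option autoImplicit false

namespace Pool.Agent.W565.Pw.NUML

open Pool.Agent.W945.Pw

theorem main : NUML.Stm := by
  intro d L hd hL
  have hd1 : (1 : ℝ) ≤ (d : ℝ) := by exact_mod_cast hd
  have hd0 : (0 : ℝ) < (d : ℝ) := by linarith
  set P : ℝ := L ^ ((d : ℝ) / (d + 1)) with hP
  have hP0 : 0 ≤ P := Real.rpow_nonneg hL _
  have hN0 : (0 : ℝ) < 2 + P := by linarith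
  -- the main factor
  have h1 : L * (2 + P) ^ (-(1 / (d : ℝ))) ≤ P := by
    rcases hL.eq_or_lt with h0 | h0
    · rw [← h0, zero_mul]
      exact hP0
    · have hPp : 0 < P := Real.rpow_pos_of_pos h0 _
      have h2 : (2 + P) ^ (-(1 / (d : ℝ))) ≤ P ^ (-(1 / (d : ℝ))) :=
        Real.rpow_le_rpow_of_nonpos hPp (by linarith)
          (by rw [neg_nonpos]; positivity)
      have h3 : L * P ^ (-(1 / (d : ℝ))) = P := by
        have h4 : L * P ^ (-(1 / (d : ℝ))) =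
            L ^ (1 : ℝ) * L ^ ((d : ℝ) / (d + 1) * (-(1 / (d : ℝ)))) := by
          rw [hP, ← Real.rpow_mul h0.le, Real.rpow_one]
        rw [h4, ← Real.rpow_add h0, hP]
        congr 1
        field_simp
        ring
      calc L * (2 + P) ^ (-(1 / (d : ℝ))) ≤ L * P ^ (-(1 / (d : ℝ))) :=
            mul_le_mul_of_nonneg_left h2 h0.le
        _ = P := h3
  -- the denominator
  have h5 : (1 - 1 / (4 * (d : ℝ))) ^ (1 / (d : ℝ)) ≤ 1 - 1 / (4 * (d : ℝ) ^ 2) := by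
    have h6 := rpow_one_add_le_one_add_mul_self (s := -(1 / (4 * (d : ℝ)))) (p := 1 / (d : ℝ))
      (by
        have : 1 / (4 * (d : ℝ)) ≤ 1 := by
          rw [div_le_one (by positivity)]
          linarith
        linarith) (by positivity) (by rw [div_le_one hd0]; exact hd1)
    have h7 : (1 : ℝ) + -(1 / (4 * (d : ℝ))) = 1 - 1 / (4 * (d : ℝ)) := by ring
    have h8 : (1 : ℝ) + 1 / (d : ℝ) * -(1 / (4 * (d : ℝ))) = 1 - 1 / (4 * (d : ℝ) ^ 2) := by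
      field_simp
      ring
    rw [h7, h8] at h6
    exact h6
  have h9 : 1 / (4 * (d : ℝ) ^ 2) ≤ 1 - (1 - 1 / (4 * (d : ℝ))) ^ (1 / (d : ℝ)) := by linarith
  have h10 : (0 : ℝ) < 1 / (4 * (d : ℝ) ^ 2) := by positivity
  have h11 : (0 : ℝ) < 1 - (1 - 1 / (4 * (d : ℝ))) ^ (1 / (d : ℝ)) := lt_of_lt_of_le h10 h9
  have h12 : 4 * L * (2 + P) ^ (-(1 / (d : ℝ))) /
      (1 - (1 - 1 / (4 * (d : ℝ))) ^ (1 / (d : ℝ))) ≤ 16 * (d : ℝ) ^ 2 * P := by
    rw [div_le_iff₀ h11]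
    have h13 : 16 * (d : ℝ) ^ 2 * P * (1 / (4 * (d : ℝ) ^ 2)) = 4 * P := by
      field_simp
      ring
    have h14 : 16 * (d : ℝ) ^ 2 * P * (1 / (4 * (d : ℝ) ^ 2)) ≤
        16 * (d : ℝ) ^ 2 * P * (1 - (1 - 1 / (4 * (d : ℝ))) ^ (1 / (d : ℝ))) :=
      mul_le_mul_of_nonneg_left h9 (by positivity)
    nlinarith [h1, h13, h14]
  have h15 : P ≤ (d : ℝ) ^ 2 * P := by
    have : (1 : ℝ) ≤ (d : ℝ) ^ 2 := one_le_pow₀ hd1
    nlinarith
  linarith

end Pool.Agent.W565.Pw.NUML
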